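import Mathlib

/-! Part LIM of project FE (helper37), with the continuity of `t ↦ G n t x` as a hypothesis. -/

set_option autoImplicit false

namespace Pool.Agent.X191.FE

open Set Filter Topology

section
variable (H : Type*) [NormedAddCommGroup H] [InnerProductSpace ℝ H] [CompleteSpace H]

/-- (LIM) with the continuity of `t ↦ G n t x` -/
def S_LIM : Prop := ∀ (P G : ℕ → ℝ → H →L[ℝ] H), (∀ n, P n 0 = 0) → (∀ n, G n 0 = 1) →
  (∀ n x t, HasDerivAt (fun s => P n s x) (G n t x) t) →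
  (∀ n x, Continuous fun t => G n t x) →
  (∀ (x : H) (τ ε : ℝ), 0 < ε → ∃ N : ℕ, ∀ m n : ℕ, N ≤ m → N ≤ n → ∀ t, |t| ≤ τ →
    ‖P n t x - P m t x‖ ≤ ε ∧ ‖G n t x - G m t x‖ ≤ ε) →
  ∃ P' G' : ℝ → H →L[ℝ] H, P' 0 = 0 ∧ G' 0 = 1 ∧ (∀ x, Continuous fun t => G' t x) ∧
    (∀ x t, HasDerivAt (fun s => P' s x) (G' t x) t) ∧
    ∀ (x : H), TendstoLocallyUniformlyOn (fun n t => P n t x) (fun t => P' t x) atTop Set.univ ∧
      TendstoLocallyUniformlyOn (fun n t => G n t x) (fun t => G' t x) atTop Set.univ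

variable {H}

theorem lim_one (P : ℕ → ℝ → H →L[ℝ] H)
    (h : ∀ (x : H) (τ ε : ℝ), 0 < ε → ∃ N : ℕ, ∀ m n : ℕ, N ≤ m → N ≤ n → ∀ t, |t| ≤ τ →
      ‖P n t x - P m t x‖ ≤ ε) :
    ∃ P' : ℝ → H →L[ℝ] H, (∀ t x, Tendsto (fun n => P n t x) atTop (𝓝 (P' t x))) ∧
      ∀ x, TendstoLocallyUniformlyOn (fun n t => P n t x) (fun t => P' t x) atTop Set.univ := by
  have hc : ∀ t x, ∃ y, Tendsto (fun n => P n t x) atTop (𝓝 y) := by
    intro t x
    apply cauchySeq_tendsto_of_complete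
    rw [Metric.cauchySeq_iff]
    intro ε hε
    obtain ⟨N, hN⟩ := h x |t| (ε / 2) (half_pos hε)
    refine ⟨N, fun m hm n hn => ?_⟩
    rw [dist_eq_norm]
    exact (hN n m hn hm t le_rfl).trans_lt (half_lt_self hε)
  choose p hp using hc
  refine ⟨fun t => continuousLinearMapOfTendsto (fun n => P n t)
    (tendsto_pi_nhds.mpr (hp t)), fun t x => hp t x, fun x => ?_⟩
  rw [Metric.tendstoLocallyUniformlyOn_iff]
  intro ε hε t _
  obtain ⟨N, hN⟩ := h x (|t| + 1) (ε / 2) (half_pos hε)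
  refine ⟨{s | |s| ≤ |t| + 1}, ?_, ?_⟩
  · rw [nhdsWithin_univ]
    have h1 : ∀ᶠ s in 𝓝 t, |s| < |t| + 1 :=
      (continuous_abs.tendsto t).eventually (gt_mem_nhds (lt_add_one _))
    exact h1.mono fun s hs => le_of_lt hs
  · filter_upwards [eventually_ge_atTop N] with n hn s hs
    have h2 : ‖P n s x - p s x‖ ≤ ε / 2 := by
      refine le_of_tendsto ((tendsto_const_nhds.sub (hp s x)).norm) ?_
      filter_upwards [eventually_ge_atTop N] with m hm
      exact hN m n hm hn s hs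
    rw [dist_comm, dist_eq_norm]
    exact h2.trans_lt (half_lt_self hε)

variable (H) in
theorem t_LIM : S_LIM H := by
  intro P G hP0 hG0 hd hcont h
  obtain ⟨P', hP1, hP2⟩ := lim_one P (fun x τ ε hε => by
    obtain ⟨N, hN⟩ := h x τ ε hε
    exact ⟨N, fun m n hm hn t ht => (hN m n hm hn t ht).1⟩)
  obtain ⟨G', hG1, hG2⟩ := lim_one G (fun x τ ε hε => by
    obtain ⟨N, hN⟩ := h x τ ε hε
    exact ⟨N, fun m n hm hn t ht => (hN m n hm hn t ht).2⟩)
  refine ⟨P', G', ?_, ?_, ?_, ?_, fun x => ⟨hP2 x, hG2 x⟩⟩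
  · ext x
    refine tendsto_nhds_unique (hP1 0 x) ?_
    simp only [hP0]
    exact tendsto_const_nhds
  · ext x
    refine tendsto_nhds_unique (hG1 0 x) ?_
    simp only [hG0]
    exact tendsto_const_nhds
  · intro x
    rw [← continuousOn_univ]
    refine (hG2 x).continuousOn (Frequently.of_forall fun n => ?_)
    exact (hcont n x).continuousOn
  · intro x t
    exact hasDerivAt_of_tendstoLocallyUniformlyOn isOpen_univ (hG2 x)
      (Eventually.of_forall fun n s _ => hd n x s) (fun s _ => hP1 s x) (mem_univ t)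

end

end Pool.Agent.X191.FE
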